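import Pool.Agent.helper17.EXT.Spec

set_option autoImplicit false

open Finset

namespace Pool.Agent.EXT

open Pool.Agent.EXC

theorem RPF_xe {K : Type} [Field K] (a : Lm C6 K) (c t : K) (v : Lm C6 K) : xe C6 (c • a) t v = xe C6 a (c * t) v := by
  unfold xe
  rw [br_smul_left, fm_smul_left, smul_smul, smul_smul]
  have e1 : t * c = c * t := mul_comm t c
  have e2 : t ^ 2 * (c * fm C6 a v) * c = (c * t) ^ 2 * fm C6 a v := by ring
  rw [e1, e2]

theorem RPF (hPLF : PLF_stmt) (hCNF : CNF_stmt) (hIMF : IMF_stmt) (hTFS : TFS_stmt) (hPCS : PCS_stmt) (hFXF : FXF_stmt) (hESF : ESF_stmt) (hGFX : GFX_stmt) (hUNF : UNF_stmt) (hSGR : SGR_stmt) : RPF_stmt := by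
  intro K _ _ τ hτ x hx hx1
  by_contra hcon
  push Not at hcon
  let P : Lm C6 K → Prop := fun a => ∀ f : GF τ, InX τ a (f : Equiv.Perm (LT τ)) → x f = f
  have key : ∀ a a' : Lm C6 K, ∀ m : ℤ, ExS τ a → ExS τ a' → ImF τ x a a' → TpS τ a a' m → m ≠ -2 → P a :=
    fun a a' m h1 h2 h3 h4 h5 f h6 => hcon a a' m h1 h2 h3 h4 h5 f h6
  have hself : ∀ a : Lm C6 K, P a → ImF τ x a a := by
    intro a ha f
    constructor
    · intro h1
      rw [ha f h1]
      exact h1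
    · intro h1
      have h2 : x (x f) = x f := ha (x f) h1
      have h3 : x f = f := x.injective h2
      rw [h3] at h1
      exact h1
  obtain ⟨a₀, a₀', m₀, e1, e2, e3, e4, e5⟩ := hPLF K τ hτ x hx
  have hP0 : P a₀ := key a₀ a₀' m₀ e1 e2 e3 e4 e5
  have hstep : ∀ a b, TpS τ a b 1 → P a → P b := by
    intro a b hab ha
    obtain ⟨t1, t2, _, _, _, _, _, t8, _⟩ := hTFS K τ hτ a b 1 hab
    obtain ⟨v, hv0, hv⟩ := t8 rfl
    obtain ⟨b', hb', him⟩ := hx b t2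
    have hab' := (hIMF K τ hτ x hx).2.2.2 a b a b' t1 hb' (hself a ha) him hab
    obtain ⟨_, _, _, _, _, _, _, s8, _⟩ := hTFS K τ hτ a b' 1 hab'
    obtain ⟨w, hw0, hw⟩ := s8 rfl
    have hEx : Ex C6 a := ((hESF K τ hτ).2 a t1).1
    have hXa : Xtr C6 a := ((f_EXF 6 C6 K (f_NBR 6 C6 1 th ![0, 2, 3, 4, 5] f_DE6.2).1).2.2.1 a hEx).1
    have hfm : fm C6 b b' = 0 := by
      rw [hv, hw, hXa.inv, hXa.sq, hw0, mul_zero, zero_smul, fm_zero_right, neg_zero]
    obtain ⟨m, _, _, hm⟩ := hPCS K τ hτ b b' t2 hb'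
    have hne : m ≠ -2 := by
      intro h
      have := ((hTFS K τ hτ b b' m hm).2.2.2.2.2.2.1).2 h
      exact this hfm
    exact key b b' m t2 hb' him hm hne
  have hall := hCNF K τ hτ P (by
    intro a c hc _ ha f ht
    obtain ⟨t, h1, ht⟩ := ht
    refine ha f ⟨c * t, ?_, fun v => ?_⟩
    · rw [map_mul, hc, h1]
    · rw [ht v]
      exact RPF_xe a c t v) hstep ⟨a₀, e1, hP0⟩
  exact hx1 ((hFXF K τ hτ).1 x fun a ha => hself a (hall a ha))

end Pool.Agent.EXT
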